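import Pool.Agent.Y961.SU.Diag

/-! SV-ROOTV (job 10614, helper794 for helper142): the eigenbasis, selfadjoint coefficients.
After Y961/SU/Diag.lean. -/

set_option autoImplicit false
set_option linter.unusedSectionVars false

open Matrix

namespace Pool.Agent.Y794.SV

open Pool.Agent.Y929.ZS (EE sep)
open Pool.Agent.Y961.SU (EE_eq)

section

variable {F ι : Type} [Field F] [CharZero F] [Fintype ι] [DecidableEq ι]

/-- the data in the eigenbasis -/
structure Dat (x : ι → F) (c : F) (J : Matrix ι ι F) (ε : F) (s : ι → ι) (T : ι → ι → Prop)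
    (𝔤 : Submodule F (Matrix ι ι F)) : Prop where
  x0 : ∀ a, x a ≠ 0
  xs : ∀ a, x a * x (s a) = c
  ss : ∀ a, s (s a) = a
  Jz : ∀ a b, b ≠ s a → J a b = 0
  Jn : ∀ a, J a (s a) ≠ 0
  Je : ∀ a, J (s a) a = ε * J a (s a)
  ep : ε = 1 ∨ ε = -1
  Tr : ∀ a, T a a
  Ts : ∀ a b, T a b → T b a
  Tt : ∀ a b d, T a b → T b d → T a d
  Tsa : ∀ a, T a (s a)
  gen : ∀ a b d e, a ≠ b → x a * x e = x d * x b → (d = a ∧ e = b) ∨ (d = s b ∧ e = s a)
  sim : ∀ Z ∈ 𝔤, ∃ μ : F, Zᵀ * J + J * Z = μ • J
  br : ∀ X ∈ 𝔤, ∀ Y ∈ 𝔤, X * Y - Y * X ∈ 𝔤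
  ad : ∀ Z ∈ 𝔤, (Matrix.of fun a b => x a / x b * Z a b) ∈ 𝔤
  zero : ∀ Z ∈ 𝔤, ∀ a b, Z a b ≠ 0 → T a b
  full : ∀ a b, T a b → ∀ W : Submodule F (ι → F), (∀ Z ∈ 𝔤, ∀ w ∈ W, Z *ᵥ w ∈ W) →
    Pi.single b (1 : F) ∈ W → Pi.single a (1 : F) ∈ W

variable {x : ι → F} {c : F} {J : Matrix ι ι F} {ε : F} {s : ι → ι} {T : ι → ι → Prop}
  {𝔤 : Submodule F (Matrix ι ι F)}

theorem rel (h : Dat x c J ε s T 𝔤) {Z : Matrix ι ι F} {μ : F} (hZ : Zᵀ * J + J * Z = μ • J)
    (a b : ι) :
    J b (s b) * Z b a + J a (s a) * Z (s a) (s b) = μ * (if s b = s a then J a (s a) else 0) := by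
  have h1 := congrFun (congrFun hZ a) (s b)
  simp only [Matrix.add_apply, Matrix.mul_apply, Matrix.transpose_apply, Matrix.smul_apply,
    smul_eq_mul] at h1
  rw [Finset.sum_eq_single b, Finset.sum_eq_single (s a)] at h1
  · rw [mul_comm (J b (s b)) (Z b a), h1]
    congr 1
    by_cases hab : s b = s a
    · rw [if_pos hab, hab]
    · rw [if_neg hab, h.Jz _ _ hab]
  · intro k _ hk
    rw [h.Jz a k hk, zero_mul]
  · intro hk
    exact absurd (Finset.mem_univ _) hk
  · intro k _ hk
    have : s b ≠ s k := by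
      intro h2
      apply hk
      rw [← h.ss k, ← h2, h.ss]
    rw [h.Jz k (s b) this, mul_zero]
  · intro hk
    exact absurd (Finset.mem_univ _) hk

/-- polynomials in the adjoint action -/
theorem ad_poly (h : Dat x c J ε s T 𝔤) {Z : Matrix ι ι F} (hZ : Z ∈ 𝔤) (p : Polynomial F) :
    (Matrix.of fun a b => p.eval (x a / x b) * Z a b) ∈ 𝔤 := by
  induction p using Polynomial.induction_on with
  | C r =>
    have : (Matrix.of fun a b => (Polynomial.C r).eval (x a / x b) * Z a b) = r • Z := by
      ext a b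
      simp
    rw [this]
    exact 𝔤.smul_mem _ hZ
  | add p q hp hq =>
    have : (Matrix.of fun a b => (p + q).eval (x a / x b) * Z a b) =
        (Matrix.of fun a b => p.eval (x a / x b) * Z a b) +
        (Matrix.of fun a b => q.eval (x a / x b) * Z a b) := by
      ext a b
      simp [add_mul]
    rw [this]
    exact 𝔤.add_mem hp hq
  | monomial n r hp =>
    have h1 := h.ad _ hp
    have : (Matrix.of fun a b => (Polynomial.C r * Polynomial.X ^ (n + 1)).eval (x a / x b) * Z a b) =
        (Matrix.of fun a b => x a / x b * (Matrix.of fun a b =>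
          (Polynomial.C r * Polynomial.X ^ n).eval (x a / x b) * Z a b) a b) := by
      ext a b
      simp only [Matrix.of_apply, Polynomial.eval_mul, Polynomial.eval_C, Polynomial.eval_pow,
        Polynomial.eval_X]
      ring
    rw [this]
    exact h1

/-- STEP 1 -/
theorem root_of (h : Dat x c J ε s T 𝔤) {Z : Matrix ι ι F} (hZ : Z ∈ 𝔤) {a b : ι} (hab : a ≠ b)
    (hne : Z a b ≠ 0) : EE J s a b ∈ 𝔤 := by
  classical
  obtain ⟨p, hp1, hp2⟩ := sep (x a / x b)
    (Finset.univ.image fun q : ι × ι => x q.1 / x q.2)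
  have h1 := ad_poly h hZ p
  obtain ⟨μ, hμ⟩ := h.sim Z hZ
  have hjb := h.Jn b
  have hrel : Z (s b) (s a) = -(J a (s a) / J b (s b)) * Z a b := by
    have h2 := rel h hμ b a
    have h3 : s a ≠ s b := by
      intro h4
      apply hab
      rw [← h.ss a, h4, h.ss]
    rw [if_neg h3, mul_zero] at h2
    field_simp
    linear_combination h2
  have hq0 : x (s b) / x (s a) = x a / x b := by
    rw [div_eq_div_iff (h.x0 _) (h.x0 _)]
    linear_combination h.xs b - h.xs a
  -- the entries
  have hent : ∀ d e, p.eval (x d / x e) * Z d e =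
      if (d = a ∧ e = b) ∨ (d = s b ∧ e = s a) then Z d e else 0 := by
    intro d e
    by_cases hq : x d / x e = x a / x b
    · rw [hq, hp1, one_mul]
      rw [div_eq_div_iff (h.x0 e) (h.x0 b)] at hq
      rw [if_pos]
      exact h.gen a b d e hab hq.symm
    · rw [hp2 _ (Finset.mem_image.2 ⟨(d, e), Finset.mem_univ _, rfl⟩) hq, zero_mul, if_neg]
      rintro (⟨rfl, rfl⟩ | ⟨rfl, rfl⟩)
      · exact hq rfl
      · exact hq hq0
  by_cases hb : b = s a
  · have hsb : s b = a := by rw [hb, h.ss]
    have h2 : EE J s a b = ((1 - J a (s a) / J b (s b)) * (Z a b)⁻¹) •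
        (Matrix.of fun d e => p.eval (x d / x e) * Z d e) := by
      ext d e
      simp only [EE, Matrix.of_apply, Matrix.smul_apply, smul_eq_mul]
      rw [hent]
      by_cases hc : d = a ∧ e = b
      · rw [if_pos hc, if_pos (⟨hc.1.trans hsb.symm, hc.2.trans hb⟩ : d = s b ∧ e = s a),
          if_pos (Or.inl hc), hc.1, hc.2]
        field_simp
      · have hc2 : ¬ (d = s b ∧ e = s a) := by
          rw [hsb, ← hb]
          exact hc
        rw [if_neg hc, if_neg hc2, if_neg (by tauto)]
        ring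
    rw [h2]
    exact 𝔤.smul_mem _ h1
  · have h2 : EE J s a b = (Z a b)⁻¹ • (Matrix.of fun d e => p.eval (x d / x e) * Z d e) := by
      ext d e
      simp only [EE, Matrix.of_apply, Matrix.smul_apply, smul_eq_mul]
      rw [hent]
      by_cases hc : d = a ∧ e = b
      · have hc2 : ¬ (d = s b ∧ e = s a) := by
          rintro ⟨-, h4⟩
          exact hb (hc.2.symm.trans h4)
        rw [if_pos hc, if_neg hc2, if_pos (Or.inl hc), hc.1, hc.2]
        field_simp
        ring
      · by_cases hc2 : d = s b ∧ e = s a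
        · rw [if_neg hc, if_pos hc2, if_pos (Or.inr hc2), hc2.1, hc2.2, hrel]
          field_simp
          ring
        · rw [if_neg hc, if_neg hc2, if_neg (by tauto)]
          ring
    rw [h2]
    exact 𝔤.smul_mem _ h1

theorem ep0 (h : Dat x c J ε s T 𝔤) : ε ≠ 0 := by
  rcases h.ep with h1 | h1 <;> rw [h1]
  · exact one_ne_zero
  · exact neg_ne_zero.2 one_ne_zero

/-- duality -/
theorem dual (h : Dat x c J ε s T 𝔤) (a b : ι) :
    EE J s (s b) (s a) = (-(J b (s b) / J a (s a))) • EE J s a b := by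
  have ha := h.Jn a
  have hb := h.Jn b
  have he := ep0 h
  rw [EE_eq, EE_eq, h.ss, h.ss, h.Je, h.Je, smul_sub, smul_smul]
  have e1 : ε * J b (s b) / (ε * J a (s a)) = J b (s b) / J a (s a) := by field_simp
  have e2 : -(J b (s b) / J a (s a)) * (J a (s a) / J b (s b)) = -1 := by field_simp
  rw [e1, e2]
  simp only [neg_smul, one_smul]
  abel

theorem dual_mem (h : Dat x c J ε s T 𝔤) {a b : ι} (hab : EE J s a b ∈ 𝔤) :
    EE J s (s b) (s a) ∈ 𝔤 := by
  rw [dual h]
  exact 𝔤.smul_mem _ hab

/-- STEP 2: the entry of the bracket -/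
theorem entry (h : Dat x c J ε s T 𝔤) {a b d : ι} (hab : a ≠ b) (hbd : b ≠ d) (had : a ≠ d) :
    (EE J s a b * EE J s b d - EE J s b d * EE J s a b) a d =
      (1 - J a (s a) / J b (s b) * (if a = s b then 1 else 0)) *
        (1 - J b (s b) / J d (s d) * (if d = s b then 1 else 0)) -
      (J b (s b) / J d (s d) * (if a = s d then 1 else 0)) *
        (J a (s a) / J b (s b) * (if d = s a then 1 else 0)) := by
  classical
  have r1 : ∀ k, EE J s a b a k = if k = b then
      (1 - J a (s a) / J b (s b) * (if a = s b then 1 else 0)) else 0 := by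
    intro k
    simp only [EE, Matrix.of_apply]
    by_cases hk : k = b
    · by_cases ha : a = s b
      · have hsa : s a = b := by rw [ha, h.ss]
        rw [if_pos ⟨trivial, hk⟩, if_pos ⟨ha, hk.trans hsa.symm⟩, if_pos hk, if_pos ha]
      · rw [if_pos ⟨trivial, hk⟩, if_neg (fun h' => ha h'.1), if_pos hk, if_neg ha]
    · rw [if_neg (fun h' => hk h'.2), if_neg hk, if_neg]
      · ring
      · rintro ⟨h1, h2⟩
        exact hk (by rw [h2, h1, h.ss])
  have r2 : ∀ k, EE J s b d k d = if k = b then
      (1 - J b (s b) / J d (s d) * (if d = s b then 1 else 0)) else 0 := by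
    intro k
    simp only [EE, Matrix.of_apply]
    by_cases hk : k = b
    · by_cases ha : d = s b
      · have hsd : s d = b := by rw [ha, h.ss]
        rw [if_pos ⟨hk, trivial⟩, if_pos ⟨hk.trans hsd.symm, ha⟩, if_pos hk, if_pos ha]
      · rw [if_pos ⟨hk, trivial⟩, if_neg (fun h' => ha h'.2), if_pos hk, if_neg ha]
    · rw [if_neg (fun h' => hk h'.1), if_neg hk, if_neg]
      · ring
      · rintro ⟨h1, h2⟩
        exact hk (by rw [h1, h2, h.ss])
  have r3 : ∀ k, EE J s b d a k = if k = s b then
      -(J b (s b) / J d (s d) * (if a = s d then 1 else 0)) else 0 := by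
    intro k
    simp only [EE, Matrix.of_apply]
    rw [if_neg (fun h' : a = b ∧ k = d => hab h'.1), zero_sub]
    by_cases hk : k = s b
    · rw [if_pos hk]
      by_cases ha : a = s d
      · rw [if_pos ⟨ha, hk⟩, if_pos ha]
      · rw [if_neg (fun h' => ha h'.1), if_neg ha]
    · rw [if_neg hk, if_neg (fun h' => hk h'.2), mul_zero, neg_zero]
  have r4 : ∀ k, EE J s a b k d = if k = s b then
      -(J a (s a) / J b (s b) * (if d = s a then 1 else 0)) else 0 := by
    intro k
    simp only [EE, Matrix.of_apply]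
    rw [if_neg (fun h' : k = a ∧ d = b => hbd h'.2.symm), zero_sub]
    by_cases hk : k = s b
    · rw [if_pos hk]
      by_cases ha : d = s a
      · rw [if_pos ⟨hk, ha⟩, if_pos ha]
      · rw [if_neg (fun h' => ha h'.2), if_neg ha]
    · rw [if_neg hk, if_neg (fun h' => hk h'.1), mul_zero, neg_zero]
  rw [Matrix.sub_apply, Matrix.mul_apply, Matrix.mul_apply]
  congr 1
  · rw [Finset.sum_eq_single b]
    · rw [r1, r2, if_pos rfl, if_pos rfl]
    · intro k _ hk
      rw [r1, if_neg hk, zero_mul]
    · intro hk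
      exact absurd (Finset.mem_univ _) hk
  · rw [Finset.sum_eq_single (s b)]
    · rw [r3, r4, if_pos rfl, if_pos rfl]
      ring
    · intro k _ hk
      rw [r3, if_neg hk, zero_mul]
    · intro hk
      exact absurd (Finset.mem_univ _) hk

/-- transitivity -/
theorem tr (h : Dat x c J ε s T 𝔤) {a b d : ι} (hab : a ≠ b) (hbd : b ≠ d) (had : a ≠ d)
    (hco : ε = -1 ∨ (b ≠ s d ∧ b ≠ s a ∧ d ≠ s a))
    (h1 : EE J s a b ∈ 𝔤) (h2 : EE J s b d ∈ 𝔤) : EE J s a d ∈ 𝔤 := by
  classical
  refine root_of h (h.br _ h1 _ h2) had ?_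
  rw [entry h hab hbd had]
  rcases hco with he | ⟨n1, n2, n3⟩
  · have ha := h.Jn a
    have hb := h.Jn b
    have hd := h.Jn d
    by_cases c1 : a = s b
    · have hba : b = s a := by rw [c1, h.ss]
      have hdb : d ≠ s b := fun h' => had (c1.trans h'.symm)
      have hda : d ≠ s a := fun h' => hbd (hba.trans h'.symm)
      have e1 : J a (s a) / J b (s b) = -1 := by
        have h3 : J a (s a) = -1 * J b (s b) := by
          rw [← he, ← h.Je b, ← c1, ← hba]
        rw [h3]
        field_simp
      rw [if_pos c1, if_neg hdb, if_neg hda, e1]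
      norm_num
    · rw [if_neg c1]
      by_cases c2 : d = s b
      · have hbd' : b = s d := by rw [c2, h.ss]
        have hda : d ≠ s a := by
          intro h'
          apply hab
          rw [← h.ss a, ← h', c2, h.ss]
        have e1 : J b (s b) / J d (s d) = -1 := by
          have h3 : J d (s d) = -1 * J b (s b) := by
            rw [← he, ← h.Je b, ← c2, ← hbd']
          rw [h3]
          field_simp
        rw [if_pos c2, if_neg hda, e1]
        norm_num
      · rw [if_neg c2]
        by_cases c3 : d = s a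
        · have had' : a = s d := by rw [c3, h.ss]
          have e1 : J b (s b) / J d (s d) * (J a (s a) / J b (s b)) = -1 := by
            have h3 : J d (s d) = -1 * J a (s a) := by
              rw [← he, ← h.Je a, ← c3, ← had']
            rw [h3]
            field_simp
          rw [if_pos c3, if_pos had', mul_one, mul_one, e1]
          norm_num
        · rw [if_neg c3]
          norm_num
  · have m1 : a ≠ s b := fun h' => n2 (by rw [h', h.ss])
    have m2 : d ≠ s b := fun h' => n1 (by rw [h', h.ss])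
    rw [if_neg m1, if_neg m2, if_neg n3]
    norm_num

/-- `ε = -1`: all off diagonal root vectors -/
theorem all_off_sp (h : Dat x c J ε s T 𝔤) (he : ε = -1) (a b : ι) (hab : a ≠ b) (hT : T a b) :
    EE J s a b ∈ 𝔤 := by
  classical
  let W : Submodule F (ι → F) :=
    { carrier := {w | ∀ d, w d ≠ 0 → d = b ∨ EE J s d b ∈ 𝔤}
      add_mem' := by
        intro v w hv hw d hd
        by_cases h1 : v d = 0
        · refine hw d fun h2 => hd ?_
          rw [Pi.add_apply, h1, h2, add_zero]
        · exact hv d h1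
      zero_mem' := fun d hd => absurd rfl hd
      smul_mem' := by
        intro r v hv d hd
        refine hv d fun h1 => hd ?_
        rw [Pi.smul_apply, h1, smul_zero] }
  have hW : ∀ w, w ∈ W ↔ ∀ d, w d ≠ 0 → d = b ∨ EE J s d b ∈ 𝔤 := fun w => Iff.rfl
  have hst : ∀ Z ∈ 𝔤, ∀ w ∈ W, Z *ᵥ w ∈ W := by
    intro Z hZ w hw
    rw [hW] at hw ⊢
    intro d hd
    by_cases hdb : d = b
    · exact Or.inl hdb
    right
    have h1 : (Z *ᵥ w) d = ∑ e, Z d e * w e := rfl
    rw [h1] at hd
    obtain ⟨e, -, he'⟩ := Finset.exists_ne_zero_of_sum_ne_zero hd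
    have hZe : Z d e ≠ 0 := left_ne_zero_of_mul he'
    have hwe : w e ≠ 0 := right_ne_zero_of_mul he'
    by_cases hde : d = e
    · rcases hw e hwe with h2 | h2
      · exact absurd (hde.trans h2) hdb
      · rw [hde]
        exact h2
    · have h3 := root_of h hZ hde hZe
      rcases hw e hwe with h2 | h4
      · rw [← h2]
        exact h3
      · by_cases heb : e = b
        · rw [← heb]
          exact h3
        · exact tr h hde heb hdb (Or.inl he) h3 h4
  have h2 : Pi.single b (1 : F) ∈ W := by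
    rw [hW]
    intro d hd
    left
    by_contra hne
    exact hd (Pi.single_eq_of_ne hne 1)
  have h3 := h.full a b hT W hst h2
  rcases (hW _).1 h3 a (by rw [Pi.single_eq_same]; exact one_ne_zero) with h4 | h4
  · exact absurd h4 hab
  · exact h4

/-- `ε = 1`: the relation -/
def Q (J : Matrix ι ι F) (s : ι → ι) (𝔤 : Submodule F (Matrix ι ι F)) (a b : ι) : Prop :=
  a ≠ b ∧ b ≠ s a ∧ EE J s a b ∈ 𝔤

theorem Q_of (h : Dat x c J ε s T 𝔤) (he : ε = 1) {Z : Matrix ι ι F} (hZ : Z ∈ 𝔤) {a b : ι}
    (hab : a ≠ b) (hne : Z a b ≠ 0) : Q J s 𝔤 a b := by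
  refine ⟨hab, ?_, root_of h hZ hab hne⟩
  intro hb
  obtain ⟨μ, hμ⟩ := h.sim Z hZ
  have h2 := rel h hμ b a
  have h3 : s a ≠ s b := by
    intro h4
    apply hab
    rw [← h.ss a, h4, h.ss]
  have hsb : s b = a := by rw [hb, h.ss]
  rw [if_neg h3, mul_zero, ← hb, hsb] at h2
  have h4 : J b a = J a b := by
    have h5 := h.Je a
    rw [← hb, he, one_mul] at h5
    exact h5
  have hja : J a b ≠ 0 := by
    have h5 := h.Jn a
    rwa [← hb] at h5
  rw [h4] at h2
  have h5 : (2 * J a b) * Z a b = 0 := by linear_combination h2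
  rcases mul_eq_zero.1 h5 with h6 | h6
  · rcases mul_eq_zero.1 h6 with h7 | h7
    · exact two_ne_zero h7
    · exact hja h7
  · exact hne h6

theorem Q_dual (h : Dat x c J ε s T 𝔤) {a b : ι} (hQ : Q J s 𝔤 a b) : Q J s 𝔤 (s b) (s a) := by
  obtain ⟨h1, h2, h3⟩ := hQ
  refine ⟨?_, ?_, dual_mem h h3⟩
  · intro h4
    apply h1
    rw [← h.ss a, ← h4, h.ss]
  · intro h4
    rw [h.ss] at h4
    exact h2 h4.symm

theorem Q_tr (h : Dat x c J ε s T 𝔤) {a b d : ι} (h1 : Q J s 𝔤 a b) (h2 : Q J s 𝔤 b d)
    (had : a ≠ d) (hd : d ≠ s a) : Q J s 𝔤 a d := by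
  refine ⟨had, hd, tr h h1.1 h2.1 had (Or.inr ⟨?_, h1.2.1, hd⟩) h1.2.2 h2.2.2⟩
  intro h3
  apply h2.2.1
  rw [h3, h.ss]

/-- `ε = 1`: paths -/
theorem all_off_so (h : Dat x c J ε s T 𝔤) (he : ε = 1) (a b : ι) (hT : T a b) :
    a = b ∨ Q J s 𝔤 a b ∨ (a = s b ∧ ∃ e, Q J s 𝔤 a e ∧ Q J s 𝔤 e b) := by
  classical
  obtain ⟨P, hP⟩ : ∃ P : ι → Prop, ∀ d, P d ↔
      (d = b ∨ Q J s 𝔤 d b ∨ (d = s b ∧ ∃ e, Q J s 𝔤 d e ∧ Q J s 𝔤 e b)) := ⟨_, fun _ => Iff.rfl⟩
  let W : Submodule F (ι → F) :=
    { carrier := {w | ∀ d, w d ≠ 0 → P d}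
      add_mem' := by
        intro v w hv hw d hd
        by_cases h1 : v d = 0
        · refine hw d fun h2 => hd ?_
          rw [Pi.add_apply, h1, h2, add_zero]
        · exact hv d h1
      zero_mem' := fun d hd => absurd rfl hd
      smul_mem' := by
        intro r v hv d hd
        refine hv d fun h1 => hd ?_
        rw [Pi.smul_apply, h1, smul_zero] }
  have hW : ∀ w, w ∈ W ↔ ∀ d, w d ≠ 0 → P d := fun w => Iff.rfl
  have hst : ∀ Z ∈ 𝔤, ∀ w ∈ W, Z *ᵥ w ∈ W := by
    intro Z hZ w hw
    rw [hW] at hw ⊢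
    intro d hd
    have h1 : (Z *ᵥ w) d = ∑ e, Z d e * w e := rfl
    rw [h1] at hd
    obtain ⟨e, -, he'⟩ := Finset.exists_ne_zero_of_sum_ne_zero hd
    have hZe : Z d e ≠ 0 := left_ne_zero_of_mul he'
    have hwe : w e ≠ 0 := right_ne_zero_of_mul he'
    have hPe := hw e hwe
    by_cases hde : d = e
    · rw [hde]
      exact hPe
    have hQ := Q_of h he hZ hde hZe
    rw [hP] at hPe ⊢
    rcases hPe with h2 | h2 | ⟨h2, f, h3, h4⟩
    · right
      left
      rw [← h2]
      exact hQ
    · by_cases hdb : d = b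
      · exact Or.inl hdb
      by_cases hds : d = s b
      · exact Or.inr (Or.inr ⟨hds, e, hQ, h2⟩)
      · right
        left
        refine Q_tr h hQ h2 hdb ?_
        intro h5
        apply hds
        rw [h5, h.ss]
    · -- `e = s b`
      have hdb : d ≠ b := by
        intro h5
        apply hQ.2.1
        rw [h2, h5]
      have hbd : b ≠ s d := by
        intro h5
        apply hQ.1
        rw [h2, h5, h.ss]
      right
      left
      by_cases hfd : f = d
      · rw [← hfd]
        exact h4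
      by_cases hfs : f = s d
      · have h5 := Q_dual h h3
        rw [h2, h.ss, hfs, h.ss] at h5
        exact h5
      · have h5 := Q_tr h hQ h3 (Ne.symm hfd) hfs
        exact Q_tr h h5 h4 hdb hbd
  have h2 : Pi.single b (1 : F) ∈ W := by
    rw [hW]
    intro d hd
    rw [hP]
    left
    by_contra hne
    exact hd (Pi.single_eq_of_ne hne 1)
  have h3 := h.full a b hT W hst h2
  exact (hP a).1 ((hW _).1 h3 a (by rw [Pi.single_eq_same]; exact one_ne_zero))

/-- the diagonal -/
theorem diff_diag (h : Dat x c J ε s T 𝔤) {a b : ι} (hab : a ≠ b) (n1 : b ≠ s a)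
    (h1 : EE J s a b ∈ 𝔤) (h2 : EE J s b a ∈ 𝔤) :
    EE J s a a - EE J s b b ∈ 𝔤 := by
  classical
  have h3 := h.br _ h1 _ h2
  have hja := h.Jn a
  have hjb := h.Jn b
  have n2 : a ≠ s b := fun h' => n1 (by rw [h', h.ss])
  have h4 : EE J s a a - EE J s b b =
      EE J s a b * EE J s b a - EE J s b a * EE J s a b := by
    have r1 : J a (s a) / J b (s b) * (J b (s b) / J a (s a)) = 1 := by field_simp
    have r2 : J b (s b) / J a (s a) * (J a (s a) / J b (s b)) = 1 := by field_simp
    rw [EE_eq, EE_eq, EE_eq, EE_eq, div_self hja, div_self hjb, one_smul, one_smul]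
    simp only [sub_mul, mul_sub, Matrix.smul_mul, Matrix.mul_smul,
      Matrix.single_mul_single_same, Matrix.single_mul_single_of_ne _ _ _ _ n1,
      Matrix.single_mul_single_of_ne _ _ _ _ n2, Matrix.single_mul_single_of_ne _ _ _ _ n1.symm,
      Matrix.single_mul_single_of_ne _ _ _ _ n2.symm, smul_zero, sub_zero, mul_one, smul_smul, r1,
      r2, one_smul]
    abel
  rw [h4]
  exact h3

theorem off (h : Dat x c J ε s T 𝔤) (a b : ι) (hab : a ≠ b) (hT : T a b) :
    EE J s a b ∈ 𝔤 := by
  rcases h.ep with he | he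
  · by_cases hb : b = s a
    · have hsb : s b = a := by rw [hb, h.ss]
      have hja := h.Jn a
      have h0 : EE J s a b = 0 := by
        have h4 : J b (s b) = J a (s a) := by
          have h5 := h.Je a
          rw [he, one_mul] at h5
          rw [hsb, hb, h5]
        rw [EE_eq, h4, div_self hja, one_smul, hsb, ← hb, sub_self]
      rw [h0]
      exact 𝔤.zero_mem
    · rcases all_off_so h he a b hT with h1 | h1 | ⟨h1, -⟩
      · exact absurd h1 hab
      · exact h1.2.2
      · exact absurd (by rw [h1, h.ss]) hb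
  · exact all_off_sp h he a b hab hT

theorem onD (h : Dat x c J ε s T 𝔤) (a : ι) : EE J s a a ∈ 𝔤 := by
  classical
  have hja := h.Jn a
  by_cases hsa : s a = a
  · have h0 : EE J s a a = 0 := by
      rw [EE_eq, div_self hja, one_smul, hsa, sub_self]
    rw [h0]
    exact 𝔤.zero_mem
  have ha : a ≠ s a := fun h' => hsa h'.symm
  rcases h.ep with he | he
  · rcases all_off_so h he a (s a) (h.Tsa a) with h1 | h1 | ⟨-, e, h1, h2⟩
    · exact absurd h1 ha
    · exact absurd rfl h1.2.1
    · have hTae : T a e := by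
        refine h.zero _ h1.2.2 a e ?_
        simp only [EE, Matrix.of_apply]
        rw [if_pos ⟨trivial, trivial⟩, if_neg (fun h' : a = s e ∧ e = s a => h1.2.1 h'.2)]
        norm_num
      have hase : a ≠ s e := fun h' => h1.2.1 (by rw [h', h.ss])
      have hTas : T a (s e) := h.Tt _ _ _ hTae (h.Tsa e)
      have g1 := diff_diag h h1.1 h1.2.1 h1.2.2 (off h e a h1.1.symm (h.Ts _ _ hTae))
      have n3 : s e ≠ s a := by
        intro h'
        apply h1.1
        rw [← h.ss a, ← h', h.ss]
      have g2 := diff_diag h hase n3 (off h a (s e) hase hTas)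
        (off h (s e) a hase.symm (h.Ts _ _ hTas))
      have hje := h.Jn e
      have hje2 := h.Jn (s e)
      have g3 : EE J s (s e) (s e) = - EE J s e e := by
        rw [EE_eq, EE_eq, div_self hje, div_self hje2, one_smul, one_smul, h.ss]
        abel
      rw [g3] at g2
      have g4 := 𝔤.smul_mem ((1 : F) / 2) (𝔤.add_mem g1 g2)
      have g5 : ((1 : F) / 2) • (EE J s a a - EE J s e e + (EE J s a a - -EE J s e e)) =
          EE J s a a := by
        have : EE J s a a - EE J s e e + (EE J s a a - -EE J s e e) = (2 : F) • EE J s a a := by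
          rw [two_smul]
          abel
        rw [this, smul_smul]
        norm_num
      rwa [g5] at g4
  · have g1 := off h a (s a) ha (h.Tsa a)
    have g2 := off h (s a) a ha.symm (h.Ts _ _ (h.Tsa a))
    have g3 := h.br _ g1 _ g2
    have e1 : J a (s a) / J (s a) (s (s a)) = -1 := by
      rw [h.ss, h.Je, he]
      field_simp
    have e2 : J (s a) (s (s a)) / J a (s a) = -1 := by
      rw [h.ss, h.Je, he]
      field_simp
    have e3 : EE J s a (s a) = (2 : F) • Matrix.single a (s a) (1 : F) := by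
      rw [EE_eq, e1, h.ss, two_smul]
      simp only [neg_smul, one_smul]
      abel
    have e4 : EE J s (s a) a = (2 : F) • Matrix.single (s a) a (1 : F) := by
      rw [EE_eq, e2, h.ss, two_smul]
      simp only [neg_smul, one_smul]
      abel
    have e5 : EE J s a a = ((1 : F) / 4) •
        (EE J s a (s a) * EE J s (s a) a - EE J s (s a) a * EE J s a (s a)) := by
      rw [e3, e4, EE_eq, div_self hja, one_smul]
      simp only [Matrix.smul_mul, Matrix.mul_smul, Matrix.single_mul_single_same, mul_one,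
        smul_smul, ← smul_sub]
      norm_num
    rw [e5]
    exact 𝔤.smul_mem _ g3

/-- the theorem in the eigenbasis -/
theorem diag (h : Dat x c J ε s T 𝔤) (X : Matrix ι ι F) (hX : Xᵀ * J + J * X = 0)
    (hXT : ∀ a b, X a b ≠ 0 → T a b) : X ∈ 𝔤 := by
  classical
  have hrel : ∀ a b, X (s b) (s a) = -(J a (s a) / J b (s b)) * X a b := by
    intro a b
    have h2 := rel h (Z := X) (μ := 0) (by rw [hX, zero_smul]) b a
    rw [zero_mul] at h2
    have hjb := h.Jn b
    field_simp
    linear_combination h2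
  have h1 : X = ((1 : F) / 2) • ∑ a, ∑ b, X a b • EE J s a b := by
    ext d e
    rw [Matrix.smul_apply, Matrix.sum_apply]
    simp only [Matrix.sum_apply, Matrix.smul_apply, smul_eq_mul, EE, Matrix.of_apply]
    have g1 : ∀ a b, X a b * ((if d = a ∧ e = b then (1 : F) else 0) -
        J a (s a) / J b (s b) * (if d = s b ∧ e = s a then (1 : F) else 0)) =
        (if d = a then (if e = b then X d e else 0) else 0) +
        (if s e = a then (if s d = b then X d e else 0) else 0) := by
      intro a b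
      have g2 : (if d = a ∧ e = b then (1 : F) else 0) * X a b =
          (if d = a then (if e = b then X d e else 0) else 0) := by
        by_cases hd : d = a <;> by_cases he : e = b <;> simp [hd, he]
      have g3 : -(J a (s a) / J b (s b)) * X a b * (if d = s b ∧ e = s a then (1 : F) else 0) =
          (if s e = a then (if s d = b then X d e else 0) else 0) := by
        by_cases hd : s d = b
        · by_cases he : s e = a
          · have hd' : d = s b := by rw [← hd, h.ss]
            have he' : e = s a := by rw [← he, h.ss]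
            rw [if_pos ⟨hd', he'⟩, if_pos he, if_pos hd, mul_one, ← hrel, ← hd', ← he']
          · rw [if_neg (fun h' => he (by rw [h'.2, h.ss])), if_neg he, mul_zero]
        · rw [if_neg (fun h' => hd (by rw [h'.1, h.ss])), if_neg hd, ite_self, mul_zero]
      rw [← g2, ← g3]
      ring
    simp only [g1, Finset.sum_add_distrib]
    simp
    ring
  rw [h1]
  refine 𝔤.smul_mem _ (𝔤.sum_mem fun a _ => 𝔤.sum_mem fun b _ => ?_)
  by_cases hX0 : X a b = 0
  · rw [hX0, zero_smul]
    exact 𝔤.zero_mem
  refine 𝔤.smul_mem _ ?_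
  by_cases hab : a = b
  · rw [← hab]
    exact onD h a
  · exact off h a b hab (hXT a b hX0)

end

end Pool.Agent.Y794.SV
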